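import Pool.Agent.L7h34.BO.Stm

set_option autoImplicit false

/-! [CYC], [SMALL] of project BO (helper34). -/

namespace Pool.Agent.L7h6.BO

open Finset Polynomial Pool.Agent.H319B Pool.Agent.L7h58.BP Pool.Agent.L7h34.BO

theorem key (K : Type) [Field K] [Finite K] [CharP K 2] (d : ℕ) (hd : 0 < d)
    (hK : Nat.card K = 2 ^ d) (r q : ℕ) (hr : Odd r) (hq : q.Prime) (hq2 : 2 < q) (x : K)
    (h : (1 + x) ^ (r * q) + x ^ (r * q) = 0)
    (hV : ∑ i ∈ range q, ((1 + x) ^ r) ^ i * (x ^ r) ^ (q - 1 - i) = 0) :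
    orderOf (2 : ZMod q) ≤ d := by
  have hr0 : r ≠ 0 := by
    rintro rfl
    simp at hr
  have hrq : r * q ≠ 0 := Nat.mul_ne_zero hr0 hq.ne_zero
  have hx : x ≠ 0 := by
    rintro rfl
    rw [add_zero, one_pow, zero_pow hrq, add_zero] at h
    exact one_ne_zero h
  have hb : x ^ r ≠ 0 := pow_ne_zero _ hx
  have h1 : ((1 + x) ^ r) ^ q = (x ^ r) ^ q := by
    have := eq_neg_of_add_eq_zero_left h
    rw [CharTwo.neg_eq, pow_mul, pow_mul] at this
    exact this
  set z := (1 + x) ^ r / x ^ r with hz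
  have hzq : z ^ q = 1 := by
    rw [hz, div_pow, h1, div_self (pow_ne_zero _ hb)]
  have hz1 : z ≠ 1 := by
    intro h2
    rw [hz, div_eq_one_iff_eq hb] at h2
    rw [h2] at hV
    have h3 : ∀ i ∈ range q, (x ^ r) ^ i * (x ^ r) ^ (q - 1 - i) = (x ^ r) ^ (q - 1) := by
      intro i hi
      have := mem_range.1 hi
      rw [← pow_add]
      congr 1
      omega
    rw [sum_congr rfl h3, sum_const, card_range, nsmul_eq_mul] at hV
    rcases mul_eq_zero.1 hV with h4 | h4
    · have h5 := (CharP.cast_eq_zero_iff K 2 q).1 h4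
      have h6 := (Nat.prime_dvd_prime_iff_eq Nat.prime_two hq).1 h5
      omega
    · exact pow_ne_zero _ hb h4
  have hz0 : z ≠ 0 := by
    intro h2
    rw [h2, zero_pow hq.ne_zero] at hzq
    exact zero_ne_one hzq
  have := Fintype.ofFinite K
  have hz2 : z ^ (2 ^ d - 1) = 1 := by
    rw [← hK, Nat.card_eq_fintype_card]
    exact FiniteField.pow_card_sub_one_eq_one z hz0
  have := Fact.mk hq
  have ho : orderOf z = q := orderOf_eq_prime hzq hz1
  have h3 : q ∣ 2 ^ d - 1 := by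
    rw [← ho]
    exact orderOf_dvd_of_pow_eq_one hz2
  refine Nat.le_of_dvd hd (orderOf_dvd_of_pow_eq_one ?_)
  have h4 := (ZMod.natCast_eq_zero_iff (2 ^ d - 1) q).2 h3
  rw [Nat.cast_sub Nat.one_le_two_pow] at h4
  push_cast at h4
  exact sub_eq_zero.1 h4

theorem ne_zero_pol (N : ℕ) (hN : N ≠ 0) : ((1 + X) ^ N + X ^ N : (ZMod 2)[X]) ≠ 0 := by
  intro h
  have h1 := congrArg (fun p : (ZMod 2)[X] => p.eval 0) h
  simp [hN] at h1

theorem s_CYC : S_CYC := by
  intro r q hr hq hq2 u hu hlt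
  have hr0 : r ≠ 0 := by
    rintro rfl
    simp at hr
  have hrq : r * q ≠ 0 := Nat.mul_ne_zero hr0 hq.ne_zero
  have hP0 := ne_zero_pol (r * q) hrq
  have hu0 : u ≠ 0 := by
    rintro rfl
    exact hP0 (zero_dvd_iff.1 hu)
  have hcop : IsCoprime u (∑ i ∈ range q, ((1 + X : (ZMod 2)[X]) ^ r) ^ i *
      ((X : (ZMod 2)[X]) ^ r) ^ (q - 1 - i)) := by
    refine isCoprime_of_irreducible_dvd (fun h => hu0 h.1) ?_
    intro v hv hvu hvV
    have := Fact.mk hv
    have hdv : 0 < v.natDegree := hv.natDegree_pos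
    have hle : v.natDegree ≤ u.natDegree := natDegree_le_of_dvd hvu hu0
    have : Module.Finite (ZMod 2) (AdjoinRoot v) := (AdjoinRoot.powerBasis hv.ne_zero).finite
    have : Finite (AdjoinRoot v) := Module.finite_of_finite (ZMod 2)
    have : CharP (AdjoinRoot v) 2 :=
      charP_of_injective_algebraMap (algebraMap (ZMod 2) (AdjoinRoot v)).injective 2
    have hcard : Nat.card (AdjoinRoot v) = 2 ^ v.natDegree := by
      rw [Module.natCard_eq_pow_finrank (K := ZMod 2), Nat.card_zmod,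
        (AdjoinRoot.powerBasis hv.ne_zero).finrank, AdjoinRoot.powerBasis_dim]
    have h1 := key (AdjoinRoot v) v.natDegree hdv hcard r q hr hq hq2 (AdjoinRoot.root v) (by
      have h := hvu.trans hu
      rw [← AdjoinRoot.mk_eq_zero] at h
      simpa using h) (by
      rw [← AdjoinRoot.mk_eq_zero] at hvV
      simpa using hvV)
    omega
  have hfac : ((1 + X) ^ (r * q) + X ^ (r * q) : (ZMod 2)[X]) =
      (∑ i ∈ range q, ((1 + X : (ZMod 2)[X]) ^ r) ^ i * ((X : (ZMod 2)[X]) ^ r) ^ (q - 1 - i)) *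
        ((1 + X) ^ r + X ^ r) := by
    have h1 := geom_sum₂_mul ((1 + X : (ZMod 2)[X]) ^ r) ((X : (ZMod 2)[X]) ^ r) q
    rw [CharTwo.sub_eq_add, CharTwo.sub_eq_add, ← pow_mul, ← pow_mul] at h1
    exact h1.symm
  rw [hfac] at hu
  exact hcop.dvd_of_dvd_mul_left hu

theorem s_SMALL (hc : S_CYC) : S_SMALL := by
  intro r q hr hq hq2 g hgR hlt
  have hr0 : r ≠ 0 := by
    rintro rfl
    simp at hr
  have hr1 : 1 ≤ r := Nat.one_le_iff_ne_zero.2 hr0
  have hqo : Odd q := hq.odd_of_ne_two (by omega)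
  have hn : 5 ≤ r * q + 2 := by
    have : 1 * q ≤ r * q := Nat.mul_le_mul_right _ hr1
    omega
  have ho : Odd (r * q + 2) := (hr.mul hqo).add_even even_two
  have hg0 : g ≠ 0 := by
    rintro rfl
    exact (Rn_spec (r * q + 2) (by omega) ho).2.1.ne_zero (zero_dvd_iff.1 hgR)
  have hlc : g.leadingCoeff⁻¹ ≠ 0 := inv_ne_zero (leadingCoeff_ne_zero.2 hg0)
  set g1 : ℚ[X] := g * C g.leadingCoeff⁻¹ with hg1
  have hg1m : g1.Monic := monic_mul_leadingCoeff_inv hg0
  have hg1d : g1.natDegree = g.natDegree := natDegree_mul_leadingCoeff_inv g hg0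
  have hg1R : g1 ∣ Rn (r * q + 2) := by
    rw [hg1]
    have hu : IsUnit (C g.leadingCoeff⁻¹ : ℚ[X]) := isUnit_C.2 (isUnit_iff_ne_zero.2 hlc)
    exact hu.mul_right_dvd.2 hgR
  obtain ⟨u, hu, hud⟩ := mod_two_factor (r * q + 2) hn ho g1 hg1m hg1R
  rw [Nat.add_sub_cancel] at hu
  have hu2 := hc r q hr hq hq2 u hu (by rw [hud, hg1d]; exact hlt)
  have hT0 := ne_zero_pol r hr0
  have hTd : ((1 + X) ^ r + X ^ r : (ZMod 2)[X]).natDegree ≤ r - 1 := by
    rw [natDegree_le_iff_coeff_eq_zero]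
    intro N hN
    rw [coeff_add, coeff_one_add_X_pow, coeff_X_pow]
    rcases Nat.lt_or_ge r N with h1 | h1
    · rw [Nat.choose_eq_zero_of_lt h1, if_neg (by omega)]
      simp
    · have h2 : N = r := by omega
      subst h2
      rw [Nat.choose_self, if_pos rfl]
      decide
  have hle := natDegree_le_of_dvd hu2 hT0
  refine ⟨by rw [← hg1d, ← hud]; omega, ?_⟩
  rintro rfl
  rw [← hg1d, ← hud]
  have h3 : u.natDegree ≤ 2 := by omega
  have h4 : u.natDegree ≠ 1 := by
    intro h5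
    have h6 : u.degree = 1 := by
      have h8 : u ≠ 0 := by
        rintro rfl
        simp at h5
      rw [degree_eq_natDegree h8, h5]
      rfl
    obtain ⟨x, hx⟩ := exists_root_of_degree_eq_one h6
    have h7 : ((1 + X) ^ 3 + X ^ 3 : (ZMod 2)[X]).IsRoot x := hx.dvd hu2
    rw [IsRoot.def] at h7
    simp only [eval_add, eval_pow, eval_one, eval_X] at h7
    have h9 : ∀ y : ZMod 2, (1 + y) ^ 3 + y ^ 3 ≠ 0 := by decide
    exact h9 x h7
  omega

end Pool.Agent.L7h6.BO
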